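import Pool.Agent.Y6.M.Stm

/-!
# Project EM, job LOC: local bounds for the chain
-/

open Set Filter Topology
open scoped ComplexConjugate

set_option autoImplicit false

namespace Pool.Agent.Y592.EM

open Pool.Agent.Y6.M

theorem one_le_al {α : ℕ → ℝ} {G : ℕ → ℂ} {b d : ℕ → ℝ} (h : Chn α G b d) (n : ℕ) :
    1 ≤ α n := by
  induction n with
  | zero => exact le_trans (by norm_num) h.A0
  | succ n ih =>
    rw [h.step]
    exact one_le_pow₀ ih

theorem al_mono {α : ℕ → ℝ} {G : ℕ → ℂ} {b d : ℕ → ℝ} (h : Chn α G b d) (n : ℕ) :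
    α n ≤ α (n + 1) := by
  rw [h.step]
  calc α n = α n ^ 1 := (pow_one _).symm
    _ ≤ α n ^ (2 * n + 8) := pow_le_pow_right₀ (one_le_al h n) (by omega)

theorem phi_le {α : ℕ → ℝ} {G : ℕ → ℂ} {b d : ℕ → ℝ} (h : Chn α G b d) (n : ℕ) :
    α n * φc α n ≤ 1 := by
  have h1 := one_le_al h n
  unfold φc
  rw [← div_eq_mul_inv, div_le_one (by positivity)]
  calc α n = α n ^ 1 := (pow_one _).symm
    _ ≤ α n ^ (4 * n + 8) := pow_le_pow_right₀ h1 (by omega)

theorem Gb {α : ℕ → ℝ} {G : ℕ → ℂ} {b d : ℕ → ℝ} (h : Chn α G b d) (n : ℕ) :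
    ‖G n‖ * (b n + d n) ≤ 6 * α n := by
  have h1 := h.hi n
  have h2 := mul_le_mul_of_nonneg_left (h.db n) (norm_nonneg (G n))
  rw [mul_add]
  linarith

theorem Gd {α : ℕ → ℝ} {G : ℕ → ℂ} {b d : ℕ → ℝ} (h : Chn α G b d) (n : ℕ) :
    ‖G n‖ * d n ≤ 3 * α n := by
  have h1 := h.hi n
  have h2 := mul_le_mul_of_nonneg_left (h.db n) (norm_nonneg (G n))
  linarith

/-- a continuity argument -/
theorem continuity_arg {κ : Type} {a b W : ℝ} {J : Set κ} (hJ : J.Finite) (w : κ → ℝ → ℝ)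
    (hc : ∀ k ∈ J, ContinuousOn (w k) (Icc a b))
    (h : ∀ t ∈ Icc a b, (∀ u ∈ Ico a t, ∀ k ∈ J, w k u ≤ W) → ∀ k ∈ J, w k t < W) :
    ∀ t ∈ Icc a b, ∀ k ∈ J, w k t ≤ W := by
  by_contra hcon
  push Not at hcon
  obtain ⟨t, ht, n, hn, hlt⟩ := hcon
  let B : Set ℝ := ⋃ n ∈ J, (Icc a b ∩ (w n) ⁻¹' (Ici W))
  have hBc : IsCompact B := by
    refine hJ.isCompact_biUnion fun n hn => ?_
    exact isCompact_Icc.of_isClosed_subset
      ((hc n hn).preimage_isClosed_of_isClosed isClosed_Icc isClosed_Ici) inter_subset_left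
  have hBn : B.Nonempty := ⟨t, mem_biUnion hn ⟨ht, hlt.le⟩⟩
  obtain ⟨s, hs, hsl⟩ := hBc.exists_isLeast hBn
  obtain ⟨m, hm, hsI, hsW⟩ := mem_iUnion₂.mp hs
  have h1 := h s hsI (fun u hu k hk => by
    by_contra h2
    push Not at h2
    have : s ≤ u := hsl (mem_biUnion hk ⟨⟨hu.1, hu.2.le.trans hsI.2⟩, h2.le⟩)
    exact absurd hu.2 (not_lt.mpr this)) m hm
  exact absurd h1 (not_lt.mpr hsW)

theorem mvt {z z' : ℝ → ℂ} {a t c D : ℝ} (hat : a ≤ t) (hc : 0 < c)
    (hd : ∀ u ∈ Icc a t, HasDerivWithinAt z (z' u) (Icc a t) u)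
    (hb : ∀ u ∈ Ico a t, c * ‖z' u‖ ≤ D) : c * ‖z t‖ ≤ c * ‖z a‖ + D * (t - a) := by
  have hbound : ∀ u ∈ Ico a t, ‖z' u‖ ≤ D / c := by
    intro u hu
    rw [le_div_iff₀ hc, mul_comm]
    exact hb u hu
  have h1 := norm_image_sub_le_of_norm_deriv_le_segment' hd hbound t (right_mem_Icc.mpr hat)
  have h2 : ‖z t‖ ≤ ‖z a‖ + ‖z t - z a‖ := by
    have := norm_add_le (z a) (z t - z a)
    rwa [add_sub_cancel] at this
  calc c * ‖z t‖ ≤ c * (‖z a‖ + D / c * (t - a)) :=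
        mul_le_mul_of_nonneg_left (h2.trans (add_le_add le_rfl h1)) hc.le
    _ = c * ‖z a‖ + D * (t - a) := by
        field_simp

theorem norm_x_one {G y x : ℂ} {r : ℝ} (hr : 0 ≤ r) :
    ‖conj G * (r : ℂ) * y * conj x‖ = ‖G‖ * r * ‖y‖ * ‖x‖ := by
  rw [norm_mul, norm_mul, norm_mul, RCLike.norm_conj, RCLike.norm_conj, Complex.norm_real,
    Real.norm_of_nonneg hr]

/-- bound of the derivative of `x n` -/
theorem dx_bound {α : ℕ → ℝ} {G : ℕ → ℂ} {b d : ℕ → ℝ} (h : Chn α G b d) {W : ℝ} (hW : 0 ≤ W)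
    {x y : ℕ → ℂ} (hx : ∀ n, α n * ‖x n‖ ≤ W) (hy : ∀ n, α (n + 1) * ‖y n‖ ≤ W) (f : ℂ) (n : ℕ)
    (hf : ‖f‖ ≤ φc α n) : α n * ‖cX G b d x y n + f‖ ≤ 9 * W ^ 2 + 1 := by
  have hd := h.dpos
  have hb : ∀ n, 0 ≤ b n := fun n => (hd n).le.trans (h.db n)
  have ha := one_le_al h
  have h3 : α n * ‖f‖ ≤ 1 :=
    (mul_le_mul_of_nonneg_left hf (by have := ha n; positivity)).trans (phi_le h n)
  -- the second term
  have hA : ∀ m, α m * ‖conj (G m) * ((b m + d m : ℝ) : ℂ) * y m * conj (x (m + 1))‖ ≤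
      6 * W ^ 2 := by
    intro m
    rw [norm_x_one (add_nonneg (hb m) (hd m).le)]
    have h4 := Gb h m
    have h5 := al_mono h m
    have h6 := ha m
    have h6' := ha (m + 1)
    have h7 := hx (m + 1)
    have h8 := hy m
    calc α m * (‖G m‖ * (b m + d m) * ‖y m‖ * ‖x (m + 1)‖)
        ≤ α m * (6 * α m * ‖y m‖ * ‖x (m + 1)‖) := by gcongr
      _ = 6 * ((α m * ‖y m‖) * (α m * ‖x (m + 1)‖)) := by ring
      _ ≤ 6 * ((α (m + 1) * ‖y m‖) * (α (m + 1) * ‖x (m + 1)‖)) := by gcongr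
      _ ≤ 6 * (W * W) := by gcongr
      _ = 6 * W ^ 2 := by ring
  have hB : ∀ m, α (m + 1) * ‖conj (G m) * ((b m : ℝ) : ℂ) * y m * conj (x m)‖ ≤ 3 * W ^ 2 := by
    intro m
    rw [norm_x_one (hb m)]
    have h4 := h.hi m
    have h6 := ha m
    have h6' := ha (m + 1)
    have h7 := hx m
    have h8 := hy m
    calc α (m + 1) * (‖G m‖ * b m * ‖y m‖ * ‖x m‖)
        ≤ α (m + 1) * (3 * α m * ‖y m‖ * ‖x m‖) := by gcongr
      _ = 3 * ((α (m + 1) * ‖y m‖) * (α m * ‖x m‖)) := by ring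
      _ ≤ 3 * (W * W) := by gcongr
      _ = 3 * W ^ 2 := by ring
  have hn0 : 0 ≤ α n := by have := ha n; linarith
  cases n with
  | zero =>
    have h4 : ‖cX G b d x y 0 + f‖ ≤
        ‖conj (G 0) * ((b 0 + d 0 : ℝ) : ℂ) * y 0 * conj (x 1)‖ + ‖f‖ := by
      refine (norm_add_le _ _).trans (add_le_add ?_ le_rfl)
      unfold cX
      rw [norm_neg]
    calc α 0 * ‖cX G b d x y 0 + f‖ ≤
          α 0 * (‖conj (G 0) * ((b 0 + d 0 : ℝ) : ℂ) * y 0 * conj (x 1)‖ + ‖f‖) :=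
          mul_le_mul_of_nonneg_left h4 hn0
      _ = α 0 * ‖conj (G 0) * ((b 0 + d 0 : ℝ) : ℂ) * y 0 * conj (x 1)‖ + α 0 * ‖f‖ := by ring
      _ ≤ 6 * W ^ 2 + 1 := add_le_add (hA 0) h3
      _ ≤ 9 * W ^ 2 + 1 := by nlinarith [sq_nonneg W]
  | succ m =>
    have h4 : ‖cX G b d x y (m + 1) + f‖ ≤
        ‖conj (G m) * ((b m : ℝ) : ℂ) * y m * conj (x m)‖ +
        ‖conj (G (m + 1)) * ((b (m + 1) + d (m + 1) : ℝ) : ℂ) * y (m + 1) * conj (x (m + 2))‖ +
        ‖f‖ := by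
      refine (norm_add_le _ _).trans (add_le_add ?_ le_rfl)
      unfold cX
      exact norm_sub_le _ _
    calc α (m + 1) * ‖cX G b d x y (m + 1) + f‖ ≤ α (m + 1) *
          (‖conj (G m) * ((b m : ℝ) : ℂ) * y m * conj (x m)‖ +
          ‖conj (G (m + 1)) * ((b (m + 1) + d (m + 1) : ℝ) : ℂ) * y (m + 1) * conj (x (m + 2))‖ +
          ‖f‖) := mul_le_mul_of_nonneg_left h4 hn0
      _ = α (m + 1) * ‖conj (G m) * ((b m : ℝ) : ℂ) * y m * conj (x m)‖ +
          α (m + 1) *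
          ‖conj (G (m + 1)) * ((b (m + 1) + d (m + 1) : ℝ) : ℂ) * y (m + 1) * conj (x (m + 2))‖ +
          α (m + 1) * ‖f‖ := by ring
      _ ≤ 3 * W ^ 2 + 6 * W ^ 2 + 1 := add_le_add (add_le_add (hB m) (hA (m + 1))) h3
      _ = 9 * W ^ 2 + 1 := by ring

/-- bound of the derivative of `y n` -/
theorem dy_bound {α : ℕ → ℝ} {G : ℕ → ℂ} {b d : ℕ → ℝ} (h : Chn α G b d) {W : ℝ} (hW : 0 ≤ W)
    {x : ℕ → ℂ} (hx : ∀ n, α n * ‖x n‖ ≤ W) (g : ℂ) (n : ℕ)
    (hg : ‖g‖ ≤ φc α (n + 1)) : α (n + 1) * ‖cY G d x n + g‖ ≤ 9 * W ^ 2 + 1 := by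
  have hd := (h.dpos n).le
  have ha := one_le_al h n
  have ha' := one_le_al h (n + 1)
  have h3 : α (n + 1) * ‖g‖ ≤ 1 :=
    (mul_le_mul_of_nonneg_left hg (by positivity)).trans (phi_le h (n + 1))
  have h4 := Gd h n
  have h7 := hx n
  have h8 := hx (n + 1)
  have h5 : α (n + 1) * ‖cY G d x n‖ ≤ 3 * W ^ 2 := by
    unfold cY
    rw [norm_mul, norm_mul, norm_mul, Complex.norm_real, Real.norm_of_nonneg hd]
    calc α (n + 1) * (‖G n‖ * d n * ‖x n‖ * ‖x (n + 1)‖)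
        ≤ α (n + 1) * (3 * α n * ‖x n‖ * ‖x (n + 1)‖) := by gcongr
      _ = 3 * ((α n * ‖x n‖) * (α (n + 1) * ‖x (n + 1)‖)) := by ring
      _ ≤ 3 * (W * W) := by gcongr
      _ = 3 * W ^ 2 := by ring
  calc α (n + 1) * ‖cY G d x n + g‖ ≤ α (n + 1) * (‖cY G d x n‖ + ‖g‖) :=
        mul_le_mul_of_nonneg_left (norm_add_le _ _) (by positivity)
    _ = α (n + 1) * ‖cY G d x n‖ + α (n + 1) * ‖g‖ := by ring
    _ ≤ 3 * W ^ 2 + 1 := add_le_add h5 h3
    _ ≤ 9 * W ^ 2 + 1 := by nlinarith [sq_nonneg W]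

/-- the weighted amplitudes -/
noncomputable def wa (α : ℕ → ℝ) (x y : ℕ → ℝ → ℂ) : Bool × ℕ → ℝ → ℝ := fun p t =>
  if p.1 then α (p.2 + 1) * ‖y p.2 t‖ else α p.2 * ‖x p.2 t‖

/-- Local bounds. -/
theorem t_LOC : S_LOC := by
  intro α G b d h X
  have ha := one_le_al h
  have hX0 := abs_nonneg X
  set W : ℝ := 2 * (|X| + 1) with hWdef
  have hW0 : 0 ≤ W := by rw [hWdef]; positivity
  set D : ℝ := 9 * W ^ 2 + 1 with hDdef
  have hD0 : 0 ≤ D := by
    rw [hDdef]
    positivity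
  refine ⟨1 / (2 * (D + 1)), W, by positivity, ?_⟩
  intro N s e x y f g hse hes hS hxN hyN hinit
  have hix : ∀ n, α n * ‖x n s‖ ≤ |X| := by
    intro n
    have h1 : α n ≤ α n ^ 3 := by
      calc α n = α n ^ 1 := (pow_one _).symm
        _ ≤ α n ^ 3 := pow_le_pow_right₀ (ha n) (by norm_num)
    exact (mul_le_mul_of_nonneg_right h1 (norm_nonneg _)).trans
      ((hinit n).1.trans (le_abs_self X))
  have hiy : ∀ n, α (n + 1) * ‖y n s‖ ≤ |X| := by
    intro n
    have h1 : α (n + 1) ≤ α (n + 1) ^ 3 := by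
      calc α (n + 1) = α (n + 1) ^ 1 := (pow_one _).symm
        _ ≤ α (n + 1) ^ 3 := pow_le_pow_right₀ (ha (n + 1)) (by norm_num)
    exact (mul_le_mul_of_nonneg_right h1 (norm_nonneg _)).trans
      ((hinit n).2.trans (le_abs_self X))
  have hcx : ∀ n ≤ N, ContinuousOn (x n) (Icc s e) := fun n hn t ht =>
    (hS.dx n hn t ht).continuousWithinAt
  have hcy : ∀ n < N, ContinuousOn (y n) (Icc s e) := fun n hn t ht =>
    (hS.dy n hn t ht).continuousWithinAt
  set J : Set (Bool × ℕ) := {p | if p.1 then p.2 < N else p.2 ≤ N} with hJ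
  have hJfin : J.Finite := by
    apply Set.Finite.subset ((Set.finite_univ (α := Bool)).prod (Set.finite_Iic N))
    rintro ⟨c, n⟩ hp
    refine ⟨Set.mem_univ _, ?_⟩
    rcases c with _ | _
    · simpa [hJ] using hp
    · have : n < N := by simpa [hJ] using hp
      exact this.le
  have hdt : ∀ t ∈ Icc s e, D * (t - s) ≤ 1 / 2 := by
    intro t ht
    have h3 : t - s ≤ 1 / (2 * (D + 1)) := by linarith [ht.2]
    calc D * (t - s) ≤ D * (1 / (2 * (D + 1))) := by gcongr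
      _ = (D / (D + 1)) * (1 / 2) := by
        field_simp
      _ ≤ 1 * (1 / 2) := by
        gcongr
        rw [div_le_one (by positivity)]
        linarith
      _ = 1 / 2 := by norm_num
  have key : ∀ t ∈ Icc s e, ∀ p ∈ J, wa α x y p t ≤ W := by
    refine continuity_arg hJfin (wa α x y) ?_ ?_
    · rintro ⟨c, n⟩ hp
      rcases c with _ | _
      · have hn : n ≤ N := by simpa [hJ] using hp
        have : wa α x y (false, n) = fun t => α n * ‖x n t‖ := by
          funext t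
          simp [wa]
        rw [this]
        exact continuousOn_const.mul (hcx n hn).norm
      · have hn : n < N := by simpa [hJ] using hp
        have : wa α x y (true, n) = fun t => α (n + 1) * ‖y n t‖ := by
          funext t
          simp [wa]
        rw [this]
        exact continuousOn_const.mul (hcy n hn).norm
    · intro t ht hu
      have hallx : ∀ u ∈ Ico s t, ∀ m, α m * ‖x m u‖ ≤ W := by
        intro u hu' m
        by_cases hm : m ≤ N
        · have h1 := hu u hu' (false, m) (by simpa [hJ] using hm)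
          simpa [wa] using h1
        · rw [hxN m (not_le.mp hm) u ⟨hu'.1, hu'.2.le.trans ht.2⟩]
          simpa using hW0
      have hally : ∀ u ∈ Ico s t, ∀ m, α (m + 1) * ‖y m u‖ ≤ W := by
        intro u hu' m
        by_cases hm : m < N
        · have h1 := hu u hu' (true, m) (by simpa [hJ] using hm)
          simpa [wa] using h1
        · rw [hyN m (not_lt.mp hm) u ⟨hu'.1, hu'.2.le.trans ht.2⟩]
          simpa using hW0
      rintro ⟨c, n⟩ hp
      have hD := hdt t ht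
      rcases c with _ | _
      · have hn : n ≤ N := by simpa [hJ] using hp
        have h1 := mvt (z := x n)
          (z' := fun u => cX G b d (fun m => x m u) (fun m => y m u) n + f n u) (c := α n) (D := D)
          ht.1 (lt_of_lt_of_le one_pos (ha n))
          (fun u hu' => (hS.dx n hn u ⟨hu'.1, hu'.2.trans ht.2⟩).mono
            (Icc_subset_Icc le_rfl ht.2))
          (fun u hu' => dx_bound h hW0 (hallx u hu') (hally u hu') (f n u) n
            (hS.pf n u ⟨hu'.1, hu'.2.le.trans ht.2⟩))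
        have h2 : wa α x y (false, n) t = α n * ‖x n t‖ := by simp [wa]
        rw [h2]
        have h3 := hix n
        linarith
      · have hn : n < N := by simpa [hJ] using hp
        have h1 := mvt (z := y n)
          (z' := fun u => cY G d (fun m => x m u) n + g n u) (c := α (n + 1)) (D := D)
          ht.1 (lt_of_lt_of_le one_pos (ha (n + 1)))
          (fun u hu' => (hS.dy n hn u ⟨hu'.1, hu'.2.trans ht.2⟩).mono
            (Icc_subset_Icc le_rfl ht.2))
          (fun u hu' => dy_bound h hW0 (hallx u hu') (g n u) n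
            (hS.pg n u ⟨hu'.1, hu'.2.le.trans ht.2⟩))
        have h2 : wa α x y (true, n) t = α (n + 1) * ‖y n t‖ := by simp [wa]
        rw [h2]
        have h3 := hiy n
        linarith
  intro n t ht
  constructor
  · by_cases hn : n ≤ N
    · have h1 := key t ht (false, n) (by simpa [hJ] using hn)
      simpa [wa] using h1
    · rw [hxN n (not_le.mp hn) t ht]
      simpa using hW0
  · by_cases hn : n < N
    · have h1 := key t ht (true, n) (by simpa [hJ] using hn)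
      simpa [wa] using h1
    · rw [hyN n (not_lt.mp hn) t ht]
      simpa using hW0

end Pool.Agent.Y592.EM
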